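import Mathlib
import Pool.Agent.Y377.IL.MerA
import Pool.Agent.N131.SU.Small

/-!
Ultrapowers of the field of complex numbers and of the field of formal Laurent series.
-/

set_option autoImplicit false

namespace Pool.Agent.N131.SU

open Filter Cardinal
open Pool.Agent.Y377.IL (LK Cst)

/-- the ultrapower of the field of complex numbers -/
def CS : Type := Germ (U : Filter ℕ) ℂ

noncomputable instance : Field CS := inferInstanceAs (Field (Germ (U : Filter ℕ) ℂ))

/-- the class of a sequence -/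
noncomputable def gc : (ℕ → ℂ) →+* CS := Germ.coeRingHom (U : Filter ℕ)

theorem gc_surj (x : CS) : ∃ c, gc c = x := by
  induction x using Germ.inductionOn with
  | _ f => exact ⟨f, rfl⟩

theorem gc_eq {a b : ℕ → ℂ} : gc a = gc b ↔ ∀ᶠ k in (U : Filter ℕ), a k = b k :=
  Germ.coe_eq

theorem isAlgClosed_CS : IsAlgClosed CS := by
  apply IsAlgClosed.of_exists_root
  intro p hp hirr
  choose c hc using fun i => gc_surj (p.coeff i)
  have hn : 0 < p.natDegree := hirr.natDegree_pos
  have hroot : ∀ k, ∃ x : ℂ, x ^ p.natDegree + ∑ i ∈ Finset.range p.natDegree, c i k * x ^ i = 0 := by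
    intro k
    let q : Polynomial ℂ := Polynomial.X ^ p.natDegree +
      ∑ i ∈ Finset.range p.natDegree, Polynomial.C (c i k) * Polynomial.X ^ i
    have hq : q.degree ≠ 0 := by
      have h1 : (∑ i ∈ Finset.range p.natDegree, Polynomial.C (c i k) * Polynomial.X ^ i :
          Polynomial ℂ).degree < p.natDegree := by
        apply (Polynomial.degree_sum_le _ _).trans_lt
        rw [Finset.sup_lt_iff (WithBot.bot_lt_coe _)]
        intro i hi
        refine (Polynomial.degree_C_mul_X_pow_le i (c i k)).trans_lt ?_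
        exact_mod_cast Finset.mem_range.1 hi
      have h2 : q.degree = p.natDegree := by
        rw [Polynomial.degree_add_eq_left_of_degree_lt]
        · exact Polynomial.degree_X_pow _
        · rw [Polynomial.degree_X_pow]
          exact h1
      rw [h2]
      exact_mod_cast hn.ne'
    obtain ⟨x, hx⟩ := IsAlgClosed.exists_root q hq
    refine ⟨x, ?_⟩
    have h3 : q.eval x = 0 := hx
    simpa [q, Polynomial.eval_finset_sum] using h3
  choose x hx using hroot
  refine ⟨gc x, ?_⟩
  rw [Polynomial.eval_eq_sum_range, Finset.sum_range_succ, hp.coeff_natDegree, one_mul]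
  have h1 : gc (x ^ p.natDegree + ∑ i ∈ Finset.range p.natDegree, c i * x ^ i) = 0 := by
    have h2 : x ^ p.natDegree + ∑ i ∈ Finset.range p.natDegree, c i * x ^ i = 0 := by
      funext k
      have h3 := hx k
      simpa [Finset.sum_apply] using h3
    rw [h2, map_zero]
  rw [map_add, map_sum, map_pow] at h1
  simp only [map_mul, map_pow, hc] at h1
  rw [add_comm]
  exact h1

/-- the constant sequences -/
noncomputable def dg : ℂ →+* CS := gc.comp (Pi.constRingHom ℕ ℂ)

theorem dg_apply (c : ℂ) : dg c = gc fun _ => c := rfl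

theorem dg_inj : Function.Injective dg := dg.injective

theorem mk_CS : #CS = #ℂ := by
  apply le_antisymm
  · have h1 : #CS ≤ #(ℕ → ℂ) := mk_le_of_surjective (f := gc) gc_surj
    have h2 : #(ℕ → ℂ) = #ℂ := by
      rw [Cardinal.mk_arrow, Cardinal.mk_complex]
      simp
    rwa [h2] at h1
  · exact mk_le_of_injective dg_inj

/-- **Isomorphisms which preserve a countable set of constants.** -/
theorem exists_iso {S : Set ℂ} (hS : S.Countable) :
    ∃ σ : ℂ ≃+* CS, ∀ s ∈ S, σ s = dg s := by
  classical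
  haveI := isAlgClosed_CS
  let R : Subfield ℂ := Subfield.closure S
  have hR : #R ≤ ℵ₀ := by
    refine (Subfield.cardinalMk_closure_le_max S).trans ?_
    exact max_le hS.le_aleph0 le_rfl
  letI : Algebra R CS := (dg.comp R.subtype).toAlgebra
  obtain ⟨s, hs⟩ := exists_isTranscendenceBasis R ℂ
  obtain ⟨t, ht⟩ := exists_isTranscendenceBasis R CS
  have hC : ℵ₀ < #ℂ := by
    rw [Cardinal.mk_complex]
    exact Cardinal.aleph0_lt_continuum
  have h1 : #s = #t := by
    rw [← IsAlgClosed.cardinal_eq_cardinal_transcendence_basis_of_aleph0_lt' _ hs hR hC,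
      ← IsAlgClosed.cardinal_eq_cardinal_transcendence_basis_of_aleph0_lt' _ ht hR
        (by rw [mk_CS]; exact hC), mk_CS]
  obtain ⟨e⟩ := Cardinal.eq.1 h1
  haveI := IsAlgClosed.isAlgClosure_of_transcendence_basis _ hs
  haveI := IsAlgClosed.isAlgClosure_of_transcendence_basis _ ht
  let e' : Algebra.adjoin R (Set.range ((↑) : s → ℂ)) ≃ₐ[R]
      Algebra.adjoin R (Set.range ((↑) : t → CS)) :=
    hs.1.aevalEquiv.symm.trans ((MvPolynomial.renameEquiv R e).trans ht.1.aevalEquiv)
  refine ⟨IsAlgClosure.equivOfEquiv ℂ CS e'.toRingEquiv, fun c hc => ?_⟩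
  have hcR : c ∈ R := Subfield.subset_closure hc
  have h2 := IsAlgClosure.equivOfEquiv_algebraMap ℂ CS e'.toRingEquiv
    (algebraMap R (Algebra.adjoin R (Set.range ((↑) : s → ℂ))) ⟨c, hcR⟩)
  have h3 : e'.toRingEquiv (algebraMap R (Algebra.adjoin R (Set.range ((↑) : s → ℂ))) ⟨c, hcR⟩) =
      algebraMap R (Algebra.adjoin R (Set.range ((↑) : t → CS))) ⟨c, hcR⟩ :=
    e'.commutes ⟨c, hcR⟩
  rw [h3] at h2
  exact h2

/-- the ultrapower of the field of formal Laurent series, as an algebra over the complex numbers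
by means of an isomorphism -/
def KS (_σ : ℂ ≃+* CS) : Type := Germ (U : Filter ℕ) LK

variable {σ : ℂ ≃+* CS}

noncomputable instance : Field (KS σ) := inferInstanceAs (Field (Germ (U : Filter ℕ) LK))

/-- the class of a sequence -/
noncomputable def ks (σ : ℂ ≃+* CS) : (ℕ → LK) →+* KS σ := Germ.coeRingHom (U : Filter ℕ)

theorem ks_surj (x : KS σ) : ∃ c, ks σ c = x := by
  induction x using Germ.inductionOn with
  | _ f => exact ⟨f, rfl⟩

theorem ks_eq {a b : ℕ → LK} : ks σ a = ks σ b ↔ ∀ᶠ k in (U : Filter ℕ), a k = b k :=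
  Germ.coe_eq

theorem ks_zero {a : ℕ → LK} : ks σ a = 0 ↔ ∀ᶠ k in (U : Filter ℕ), a k = 0 := by
  rw [← map_zero (ks σ), ks_eq]
  rfl

/-- the constants -/
noncomputable def ik (σ : ℂ ≃+* CS) : CS →+* KS σ where
  toFun := Germ.map (algebraMap ℂ LK)
  map_one' := by
    change Germ.map (algebraMap ℂ LK) (gc 1) = ks σ 1
    change ks σ (fun k => algebraMap ℂ LK 1) = ks σ 1
    rw [map_one]
    rfl
  map_zero' := by
    change ks σ (fun k => algebraMap ℂ LK 0) = ks σ 0
    rw [map_zero]
    rfl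
  map_add' x y := by
    obtain ⟨a, rfl⟩ := gc_surj x
    obtain ⟨b, rfl⟩ := gc_surj y
    rw [← map_add]
    change ks σ (fun k => algebraMap ℂ LK (a k + b k)) =
      ks σ (fun k => algebraMap ℂ LK (a k)) + ks σ (fun k => algebraMap ℂ LK (b k))
    rw [← map_add]
    congr 1
    funext k
    exact map_add _ _ _
  map_mul' x y := by
    obtain ⟨a, rfl⟩ := gc_surj x
    obtain ⟨b, rfl⟩ := gc_surj y
    rw [← map_mul]
    change ks σ (fun k => algebraMap ℂ LK (a k * b k)) =
      ks σ (fun k => algebraMap ℂ LK (a k)) * ks σ (fun k => algebraMap ℂ LK (b k))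
    rw [← map_mul]
    congr 1
    funext k
    exact map_mul _ _ _

theorem ik_gc (c : ℕ → ℂ) : ik σ (gc c) = ks σ fun k => algebraMap ℂ LK (c k) := rfl

noncomputable instance : Algebra ℂ (KS σ) := ((ik σ).comp σ.toRingHom).toAlgebra

theorem algebraMap_ks (c : ℂ) : algebraMap ℂ (KS σ) c = ik σ (σ c) := rfl

theorem alg_of_gc {c : ℂ} {c' : ℕ → ℂ} (h : σ c = gc c') :
    algebraMap ℂ (KS σ) c = ks σ fun k => algebraMap ℂ LK (c' k) := by
  rw [algebraMap_ks, h, ik_gc]

theorem exists_gc (c : ℂ) : ∃ c' : ℕ → ℂ, σ c = gc c' := (gc_surj (σ c)).imp fun _ h => h.symm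

theorem exists_of_gc (c' : ℕ → ℂ) : ∃ c : ℂ, σ c = gc c' := ⟨σ.symm (gc c'), by simp⟩

/-- the derivation -/
noncomputable def DS (σ : ℂ ≃+* CS) (D : Derivation ℂ LK LK) : Derivation ℂ (KS σ) (KS σ) := by
  let f : KS σ → KS σ := Germ.map D
  have hf : ∀ a : ℕ → LK, f (ks σ a) = ks σ fun k => D (a k) := fun a => rfl
  have hadd : ∀ x y, f (x + y) = f x + f y := by
    intro x y
    obtain ⟨a, rfl⟩ := ks_surj x
    obtain ⟨b, rfl⟩ := ks_surj y
    rw [← map_add, hf, hf, hf, ← map_add]
    congr 1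
    funext k
    exact map_add D _ _
  have hmul : ∀ x y, f (x * y) = x * f y + y * f x := by
    intro x y
    obtain ⟨a, rfl⟩ := ks_surj x
    obtain ⟨b, rfl⟩ := ks_surj y
    rw [← map_mul, hf, hf, hf, ← map_mul, ← map_mul, ← map_add]
    congr 1
    funext k
    exact D.leibniz _ _
  have hc : ∀ c : ℂ, f (algebraMap ℂ (KS σ) c) = 0 := by
    intro c
    obtain ⟨c', hc'⟩ := exists_gc (σ := σ) c
    rw [alg_of_gc hc', hf, ks_zero]
    exact Eventually.of_forall fun k => D.map_algebraMap (c' k)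
  exact Derivation.mk'
    { toFun := f
      map_add' := hadd
      map_smul' := fun c x => by
        rw [Algebra.smul_def, hmul, hc, mul_zero, add_zero, RingHom.id_apply, Algebra.smul_def] }
    (fun x y => by
      change f (x * y) = x • f y + y • f x
      rw [hmul, smul_eq_mul, smul_eq_mul])

theorem DS_ks (D : Derivation ℂ LK LK) (a : ℕ → LK) :
    DS σ D (ks σ a) = ks σ fun k => D (a k) := rfl

theorem cst_DS {D : Derivation ℂ LK LK} (hC : Cst D) : Cst (DS σ D) := by
  intro x hx
  obtain ⟨a, rfl⟩ := ks_surj x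
  rw [DS_ks, ks_zero] at hx
  have h1 : ∀ k, ∃ c : ℂ, D (a k) = 0 → a k = algebraMap ℂ LK c := by
    intro k
    by_cases hk : D (a k) = 0
    · obtain ⟨c, hc⟩ := hC (a k) hk
      exact ⟨c, fun _ => hc⟩
    · exact ⟨0, fun h => absurd h hk⟩
  choose c' hc' using h1
  obtain ⟨c, hc⟩ := exists_of_gc (σ := σ) c'
  refine ⟨c, ?_⟩
  rw [alg_of_gc hc, ks_eq]
  exact hx.mono fun k hk => hc' k hk

end Pool.Agent.N131.SU
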